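import Mathlib
import Pool.Agent.H220.K.Stm

set_option autoImplicit false

open Set Filter Topology Metric
open scoped ContDiff ComplexConjugate

/-!
# S_vv: the defining function (helper100, for helper220)
-/

namespace Pool.Agent.H100.K

open Pool.Agent.H220.K

theorem levi_log_one (p ξ : ℂ) :
    levi (fun z : ℂ => 1 / 2 * Real.log (1 + ‖z‖ ^ 2)) p ξ =
      1 / 2 * ‖ξ‖ ^ 2 / (1 + ‖p‖ ^ 2) ^ 2 := by
  have hp : 0 < 1 + ‖p‖ ^ 2 := by positivity
  have key : ∀ v : ℂ, iteratedDeriv 2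
      (fun t : ℝ => 1 / 2 * Real.log (1 + ‖p + (t : ℂ) * v‖ ^ 2)) 0 =
      (2 * ‖v‖ ^ 2 * (1 + ‖p‖ ^ 2) - (2 * (p.re * v.re + p.im * v.im)) ^ 2) /
        (2 * (1 + ‖p‖ ^ 2) ^ 2) := by
    intro v
    set q : ℝ → ℝ := fun t => 1 + ‖p‖ ^ 2 + 2 * (p.re * v.re + p.im * v.im) * t + ‖v‖ ^ 2 * t ^ 2
      with hq
    have hqe : ∀ t : ℝ, 1 + ‖p + (t : ℂ) * v‖ ^ 2 = q t := by
      intro t
      rw [hq]
      simp only [Complex.sq_norm, Complex.normSq_apply]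
      simp
      ring
    have e : (fun t : ℝ => 1 / 2 * Real.log (1 + ‖p + (t : ℂ) * v‖ ^ 2)) =
        fun t => (1 / 2) * Real.log (q t) := by
      funext t
      rw [← hqe]
    rw [e]
    have e0 : q 0 = 1 + ‖p‖ ^ 2 := by simp [hq]
    have hq0 : 0 < q 0 := by rw [e0]; exact hp
    have hqc : Continuous q := by simp only [hq]; fun_prop
    have hqd : ∀ t, HasDerivAt q (2 * (p.re * v.re + p.im * v.im) + ‖v‖ ^ 2 * (2 * t)) t := by
      intro t
      have h1 := ((hasDerivAt_id t).const_mul (2 * (p.re * v.re + p.im * v.im))).const_add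
        (1 + ‖p‖ ^ 2)
      have h2 := (hasDerivAt_pow 2 t).const_mul (‖v‖ ^ 2)
      have h3 : HasDerivAt q _ t := h1.add h2
      refine h3.congr_deriv ?_
      simp
    have hd : ∀ᶠ t in 𝓝 (0 : ℝ), deriv (fun t => (1 / 2) * Real.log (q t)) t =
        (2 * (p.re * v.re + p.im * v.im) + ‖v‖ ^ 2 * (2 * t)) / (2 * q t) := by
      filter_upwards [hqc.continuousAt.eventually (lt_mem_nhds hq0)] with t ht
      have := ((hqd t).log (ne_of_gt ht)).const_mul (1 / 2)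
      rw [this.deriv]
      field_simp
    rw [iteratedDeriv_succ, iteratedDeriv_one, Filter.EventuallyEq.deriv_eq hd]
    have hn : HasDerivAt (fun t : ℝ => 2 * (p.re * v.re + p.im * v.im) + ‖v‖ ^ 2 * (2 * t))
        (‖v‖ ^ 2 * 2) 0 := by
      have := (((hasDerivAt_id (0 : ℝ)).const_mul 2).const_mul (‖v‖ ^ 2)).const_add
        (2 * (p.re * v.re + p.im * v.im))
      simpa using this
    have hdd := hn.div ((hqd 0).const_mul 2) (by positivity)
    have hdd' : deriv (fun t : ℝ => (2 * (p.re * v.re + p.im * v.im) + ‖v‖ ^ 2 * (2 * t)) /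
      (2 * q t)) 0 = _ := hdd.deriv
    rw [hdd', e0]
    field_simp
    ring
  have k1 := key ξ
  have k2 := key (Complex.I * ξ)
  unfold levi
  have e1 : (fun t : ℝ => 1 / 2 * Real.log (1 + ‖p + (t : ℂ) • ξ‖ ^ 2)) =
      fun t : ℝ => 1 / 2 * Real.log (1 + ‖p + (t : ℂ) * ξ‖ ^ 2) := by
    funext t; rw [smul_eq_mul]
  have e2 : (fun t : ℝ => 1 / 2 * Real.log (1 + ‖p + ((t : ℂ) * Complex.I) • ξ‖ ^ 2)) =
      fun t : ℝ => 1 / 2 * Real.log (1 + ‖p + (t : ℂ) * (Complex.I * ξ)‖ ^ 2) := by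
    funext t; rw [smul_eq_mul, mul_assoc]
  rw [e1, e2, k1, k2]
  have hpn : ‖p‖ ^ 2 = p.re * p.re + p.im * p.im := by rw [Complex.sq_norm, Complex.normSq_apply]
  have hxn : ‖ξ‖ ^ 2 = ξ.re * ξ.re + ξ.im * ξ.im := by rw [Complex.sq_norm, Complex.normSq_apply]
  rw [norm_mul, Complex.norm_I, one_mul]
  simp only [Complex.mul_re, Complex.mul_im, Complex.I_re, Complex.I_im]
  rw [← add_div, div_div, div_eq_div_iff (by positivity) (by positivity), hpn, hxn]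
  ring

theorem levi_sq (p ξ : ℂ) : levi (fun z : ℂ => ‖z‖ ^ 2) p ξ = ‖ξ‖ ^ 2 := by
  have h1 : ∀ᶠ ζ in 𝓝 (0 : ℂ), HasDerivAt (fun ζ : ℂ => (fun z : ℂ => z) (p + ζ • ξ))
      ((fun _ => ξ) ζ) ζ := by
    refine Eventually.of_forall fun ζ => ?_
    have := ((hasDerivAt_id ζ).mul_const ξ).const_add p
    simpa using this
  exact levi_norm_sq h1 (hasDerivAt_const (0 : ℂ) ξ)

theorem cd_sq {n : WithTop ℕ∞} (f : E3 →L[ℝ] ℂ) : ContDiff ℝ n (fun y : E3 => ‖f y‖ ^ 2) :=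
  f.contDiff.norm_sq ℝ

theorem cd1 {n : WithTop ℕ∞} : ContDiff ℝ n (fun y : E3 => ‖y.1‖ ^ 2) :=
  contDiff_fst.norm_sq ℝ

theorem cd2 {n : WithTop ℕ∞} : ContDiff ℝ n (fun y : E3 => ‖y.2.1‖ ^ 2) :=
  (contDiff_fst.comp contDiff_snd).norm_sq ℝ

theorem cd3 {n : WithTop ℕ∞} : ContDiff ℝ n (fun y : E3 => 1 / 2 * Real.log (1 + ‖y.2.2‖ ^ 2)) := by
  have h : ContDiff ℝ n (fun y : E3 => 1 + ‖y.2.2‖ ^ 2) :=
    contDiff_const.add ((contDiff_snd.comp contDiff_snd).norm_sq ℝ)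
  exact contDiff_const.mul (h.log fun y => by positivity)

theorem cd_rest {n : WithTop ℕ∞} : ContDiff ℝ n rest :=
  ((cd1.add cd2).sub contDiff_const).add cd3

theorem levi_rest (x ξ : E3) : levi rest x ξ =
    ‖ξ.1‖ ^ 2 + ‖ξ.2.1‖ ^ 2 + 1 / 2 * ‖ξ.2.2‖ ^ 2 / (1 + ‖x.2.2‖ ^ 2) ^ 2 := by
  have e : rest = fun y : E3 => ((‖y.1‖ ^ 2 + ‖y.2.1‖ ^ 2) + (-20)) +
      1 / 2 * Real.log (1 + ‖y.2.2‖ ^ 2) := by
    funext y
    unfold rest
    ring
  have l1 : levi (fun y : E3 => ‖y.1‖ ^ 2) x ξ = ‖ξ.1‖ ^ 2 := levi_sq x.1 ξ.1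
  have l2 : levi (fun y : E3 => ‖y.2.1‖ ^ 2) x ξ = ‖ξ.2.1‖ ^ 2 := levi_sq x.2.1 ξ.2.1
  have l3 : levi (fun y : E3 => 1 / 2 * Real.log (1 + ‖y.2.2‖ ^ 2)) x ξ =
      1 / 2 * ‖ξ.2.2‖ ^ 2 / (1 + ‖x.2.2‖ ^ 2) ^ 2 := levi_log_one x.2.2 ξ.2.2
  have c12 : ContDiff ℝ 2 (fun y : E3 => ‖y.1‖ ^ 2 + ‖y.2.1‖ ^ 2) := cd1.add cd2
  have c12' : ContDiff ℝ 2 (fun y : E3 => (‖y.1‖ ^ 2 + ‖y.2.1‖ ^ 2) + (-20 : ℝ)) :=
    c12.add contDiff_const
  have a1 := levi_add (ξ := ξ) c12'.contDiffAt (cd3 (n := 2)).contDiffAt (p := x)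
  have a2 := levi_add (ξ := ξ) c12.contDiffAt
    (contDiff_const (c := (-20 : ℝ)) (𝕜 := ℝ) (E := E3) (n := 2)).contDiffAt (p := x)
  have a3 := levi_add (ξ := ξ) (cd1 (n := 2)).contDiffAt (cd2 (n := 2)).contDiffAt (p := x)
  rw [e, a1, a2, a3, levi_const, l1, l2, l3, add_zero]

/-- the derivative along a line -/
theorem line_deriv {f : E3 → ℝ} {x : E3} (hf : DifferentiableAt ℝ f x) (u : E3) :
    HasDerivAt (fun t : ℝ => f (x + t • u)) (fderiv ℝ f x u) 0 := by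
  have h1 : HasDerivAt (fun t : ℝ => x + t • u) u 0 := by
    have := ((hasDerivAt_id (0 : ℝ)).smul_const u).const_add x
    simpa using this
  have h2 : HasFDerivAt f (fderiv ℝ f x) (x + (0 : ℝ) • u) := by
    simpa using hf.hasFDerivAt
  exact h2.comp_hasDerivAt 0 h1

theorem g0_bound (P : ℕ → ℂ) (hP : ∀ j, ‖P j‖ ≤ 1) (y : ℂ × ℂ) (hy : ‖y.1‖ ^ 2 + ‖y.2‖ ^ 2 ≤ 4) :
    g0 P y ≤ 11 := by
  have hlog : Real.log 12 ≤ 11 := by
    have := Real.log_le_sub_one_of_pos (show (0 : ℝ) < 12 by norm_num)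
    linarith
  have hlog0 : 0 ≤ Real.log 12 := Real.log_nonneg (by norm_num)
  by_cases hs : Summable fun j : ℕ => (1 / 2 : ℝ) ^ j * (1 / 2 * Real.log (D2 P j y))
  · have hg : HasSum (fun j : ℕ => (1 / 2 : ℝ) ^ j * (1 / 2 * Real.log 12))
        (2 * (1 / 2 * Real.log 12)) := hasSum_geometric_two.mul_right _
    have hle : g0 P y ≤ 2 * (1 / 2 * Real.log 12) := by
      unfold g0
      refine hasSum_le (fun j => ?_) hs.hasSum hg
      apply mul_le_mul_of_nonneg_left _ (by positivity)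
      apply mul_le_mul_of_nonneg_left _ (by norm_num)
      have hD0 : 0 ≤ D2 P j y := by unfold D2; positivity
      have hD : D2 P j y ≤ 12 := by
        unfold D2
        have h1 : ‖y.1 - P j‖ ≤ ‖y.1‖ + 1 := (norm_sub_le _ _).trans (by linarith [hP j])
        have h2 : ‖y.2 - conj (P j)‖ ≤ ‖y.2‖ + 1 := by
          refine (norm_sub_le _ _).trans ?_
          rw [RCLike.norm_conj]
          linarith [hP j]
        have h3 : ‖y.1 - P j‖ ^ 2 ≤ (‖y.1‖ + 1) ^ 2 := pow_le_pow_left₀ (norm_nonneg _) h1 2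
        have h4 : ‖y.2 - conj (P j)‖ ^ 2 ≤ (‖y.2‖ + 1) ^ 2 :=
          pow_le_pow_left₀ (norm_nonneg _) h2 2
        nlinarith [sq_nonneg (‖y.1‖ - 1), sq_nonneg (‖y.2‖ - 1)]
      rcases hD0.eq_or_lt with h0 | h0
      · rw [← h0, Real.log_zero]
        exact hlog0
      · exact Real.log_le_log h0 hD
    linarith
  · unfold g0
    rw [tsum_eq_zero_of_not_summable hs]
    norm_num

theorem s_vv (hs : S_smooth) (hr : S_rad) : S_vv := by
  intro P hP x hx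
  obtain ⟨hg, hgl⟩ := hs P hP (x.1, x.2.1) hx
  have hlin : ContDiff ℝ ∞ (fun y : E3 => ((y.1, y.2.1) : ℂ × ℂ)) :=
    contDiff_fst.prodMk (contDiff_fst.comp contDiff_snd)
  have hg' : ContDiffAt ℝ ∞ (fun y : E3 => g0 P (y.1, y.2.1)) x :=
    ContDiffAt.comp (g := g0 P) x hg hlin.contDiffAt
  have hvv : ContDiffAt ℝ ∞ (vv P) x := hg'.add cd_rest.contDiffAt
  refine ⟨hvv, ?_, ?_⟩
  · intro ξ hξ
    have h1 : levi (vv P) x ξ = levi (fun y : E3 => g0 P (y.1, y.2.1)) x ξ + levi rest x ξ :=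
      levi_add (hg'.of_le two_le_infty) (cd_rest (n := 2)).contDiffAt
    have h2 : levi (fun y : E3 => g0 P (y.1, y.2.1)) x ξ =
        levi (g0 P) (x.1, x.2.1) (ξ.1, ξ.2.1) := rfl
    have h3 := hgl (ξ.1, ξ.2.1)
    rw [h1, h2, levi_rest]
    have h4 : 0 < ‖ξ.1‖ ^ 2 + ‖ξ.2.1‖ ^ 2 + 1 / 2 * ‖ξ.2.2‖ ^ 2 / (1 + ‖x.2.2‖ ^ 2) ^ 2 := by
      by_cases k1 : ξ.1 = 0
      · by_cases k2 : ξ.2.1 = 0
        · have k3 : ξ.2.2 ≠ 0 := by
            intro k3
            apply hξ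
            exact Prod.ext k1 (Prod.ext k2 k3)
          have : 0 < ‖ξ.2.2‖ := norm_pos_iff.2 k3
          positivity
        · have : 0 < ‖ξ.2.1‖ := norm_pos_iff.2 k2
          positivity
      · have : 0 < ‖ξ.1‖ := norm_pos_iff.2 k1
        positivity
    linarith
  · intro h0 hf
    have hdv : DifferentiableAt ℝ (vv P) x := hvv.differentiableAt (by norm_num)
    by_cases hw : x.2.2 = 0
    · -- the radial direction
      have hbig : 4 < ‖x.1‖ ^ 2 + ‖x.2.1‖ ^ 2 := by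
        by_contra hcon
        push Not at hcon
        have h1 := g0_bound P hP (x.1, x.2.1) hcon
        unfold vv rest at h0
        rw [hw, norm_zero] at h0
        norm_num at h0
        linarith
      have hdg : DifferentiableAt ℝ (g0 P) (x.1, x.2.1) := hg.differentiableAt (by norm_num)
      have hrad := hr P hP (x.1, x.2.1) hx (by change 2 ≤ ‖x.1‖ ^ 2 + ‖x.2.1‖ ^ 2; linarith) hdg
      have hl := line_deriv hdv ((x.1, x.2.1, 0) : E3)
      rw [hf] at hl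
      have hl' : HasDerivAt (fun t : ℝ => vv P (x + t • ((x.1, x.2.1, 0) : E3))) 0 0 := hl
      -- the same derivative computed termwise
      have hg1 : HasDerivAt (fun t : ℝ => g0 P ((x.1, x.2.1) + t • ((x.1, x.2.1) : ℂ × ℂ)))
          (fderiv ℝ (g0 P) (x.1, x.2.1) (x.1, x.2.1)) 0 := by
        have k1 : HasDerivAt (fun t : ℝ => ((x.1, x.2.1) : ℂ × ℂ) + t • ((x.1, x.2.1) : ℂ × ℂ))
            (x.1, x.2.1) 0 := by
          have := ((hasDerivAt_id (0 : ℝ)).smul_const ((x.1, x.2.1) : ℂ × ℂ)).const_add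
            ((x.1, x.2.1) : ℂ × ℂ)
          simpa using this
        have k2 : HasFDerivAt (g0 P) (fderiv ℝ (g0 P) (x.1, x.2.1))
            (((x.1, x.2.1) : ℂ × ℂ) + (0 : ℝ) • ((x.1, x.2.1) : ℂ × ℂ)) := by
          simpa using hdg.hasFDerivAt
        exact k2.comp_hasDerivAt 0 k1
      have hg2 : HasDerivAt (fun t : ℝ => (1 + t) ^ 2 * (‖x.1‖ ^ 2 + ‖x.2.1‖ ^ 2) - 20)
          (2 * (‖x.1‖ ^ 2 + ‖x.2.1‖ ^ 2)) 0 := by
        have k1 := ((((hasDerivAt_id (0 : ℝ)).const_add 1).pow 2).mul_const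
          (‖x.1‖ ^ 2 + ‖x.2.1‖ ^ 2)).sub_const 20
        simpa using k1
      have heq : (fun t : ℝ => vv P (x + t • ((x.1, x.2.1, 0) : E3))) = fun t : ℝ =>
          g0 P ((x.1, x.2.1) + t • ((x.1, x.2.1) : ℂ × ℂ)) +
            ((1 + t) ^ 2 * (‖x.1‖ ^ 2 + ‖x.2.1‖ ^ 2) - 20) := by
        funext t
        unfold vv rest
        have n1 : ‖(x + t • ((x.1, x.2.1, 0) : E3)).1‖ ^ 2 = (1 + t) ^ 2 * ‖x.1‖ ^ 2 := by
          have : (x + t • ((x.1, x.2.1, 0) : E3)).1 = ((1 + t : ℝ) : ℂ) * x.1 := by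
            change x.1 + t • x.1 = _
            rw [Complex.real_smul]; push_cast; ring
          rw [this, norm_mul, mul_pow, Complex.norm_real, Real.norm_eq_abs, sq_abs]
        have n2 : ‖(x + t • ((x.1, x.2.1, 0) : E3)).2.1‖ ^ 2 = (1 + t) ^ 2 * ‖x.2.1‖ ^ 2 := by
          have : (x + t • ((x.1, x.2.1, 0) : E3)).2.1 = ((1 + t : ℝ) : ℂ) * x.2.1 := by
            change x.2.1 + t • x.2.1 = _
            rw [Complex.real_smul]; push_cast; ring
          rw [this, norm_mul, mul_pow, Complex.norm_real, Real.norm_eq_abs, sq_abs]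
        have n3 : (x + t • ((x.1, x.2.1, 0) : E3)).2.2 = 0 := by
          change x.2.2 + t • (0 : ℂ) = 0
          rw [hw, smul_zero, add_zero]
        have n4 : ((x + t • ((x.1, x.2.1, 0) : E3)).1, (x + t • ((x.1, x.2.1, 0) : E3)).2.1) =
            ((x.1, x.2.1) : ℂ × ℂ) + t • ((x.1, x.2.1) : ℂ × ℂ) := rfl
        rw [n1, n2, n3, n4, norm_zero]
        norm_num
        ring
      rw [heq] at hl'
      have huniq := hl'.unique (hg1.add hg2)
      linarith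
    · -- the direction of `w`
      have hl := line_deriv hdv ((0, 0, x.2.2) : E3)
      rw [hf] at hl
      have hl' : HasDerivAt (fun t : ℝ => vv P (x + t • ((0, 0, x.2.2) : E3))) 0 0 := hl
      have hwp : 0 < ‖x.2.2‖ ^ 2 := by
        have : 0 < ‖x.2.2‖ := norm_pos_iff.2 hw
        positivity
      have hg2 : HasDerivAt (fun t : ℝ => 1 / 2 * Real.log (1 + (1 + t) ^ 2 * ‖x.2.2‖ ^ 2))
          (‖x.2.2‖ ^ 2 / (1 + ‖x.2.2‖ ^ 2)) 0 := by
        have k1 : HasDerivAt (fun t : ℝ => 1 + (1 + t) ^ 2 * ‖x.2.2‖ ^ 2)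
            (2 * ‖x.2.2‖ ^ 2) 0 := by
          have := ((((hasDerivAt_id (0 : ℝ)).const_add 1).pow 2).mul_const
            (‖x.2.2‖ ^ 2)).const_add 1
          simpa using this
        have k2 := (k1.log (by positivity)).const_mul (1 / 2)
        refine k2.congr_deriv ?_
        norm_num
        ring
      have heq : (fun t : ℝ => vv P (x + t • ((0, 0, x.2.2) : E3))) = fun t : ℝ =>
          (g0 P (x.1, x.2.1) + (‖x.1‖ ^ 2 + ‖x.2.1‖ ^ 2 - 20)) +
            1 / 2 * Real.log (1 + (1 + t) ^ 2 * ‖x.2.2‖ ^ 2) := by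
        funext t
        unfold vv rest
        have n1 : (x + t • ((0, 0, x.2.2) : E3)).1 = x.1 := by
          change x.1 + t • (0 : ℂ) = x.1
          rw [smul_zero, add_zero]
        have n2 : (x + t • ((0, 0, x.2.2) : E3)).2.1 = x.2.1 := by
          change x.2.1 + t • (0 : ℂ) = x.2.1
          rw [smul_zero, add_zero]
        have n3 : ‖(x + t • ((0, 0, x.2.2) : E3)).2.2‖ ^ 2 = (1 + t) ^ 2 * ‖x.2.2‖ ^ 2 := by
          have : (x + t • ((0, 0, x.2.2) : E3)).2.2 = ((1 + t : ℝ) : ℂ) * x.2.2 := by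
            change x.2.2 + t • x.2.2 = _
            rw [Complex.real_smul]; push_cast; ring
          rw [this, norm_mul, mul_pow, Complex.norm_real, Real.norm_eq_abs, sq_abs]
        rw [n1, n2, n3]
        ring
      rw [heq] at hl'
      have huniq := hl'.unique (hg2.const_add _)
      have : 0 < ‖x.2.2‖ ^ 2 / (1 + ‖x.2.2‖ ^ 2) := by positivity
      linarith

end Pool.Agent.H100.K
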